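import Pool.Agent.Y979.FC.Words

/-!
# The merged 1-dependent 4-coloring is a 4-block factor of an i.i.d. process

Let `T i` be independent uniform variables and `e i` independent fair bits, let `Q i` tell whether
`T i` is smaller than both `T (i - 1)` and `T (i + 1)`, and let `C i = (e i == Q i)`. The process
with the symbol 1 at `i` when `e i = 1, e (i + 1) = 0`, the symbol 2 when `C i = 1, C (i + 1) = 0`
and the symbol star otherwise has the law of the 1-dependent 4-coloring in which the colors 3 and 4
are merged.
-/

set_option autoImplicit false

open MeasureTheory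
open scoped ENNReal

namespace Pool.Agent.Results.MP_885716_pr.MergedIsBlockFactor

open Pool.Agent.Y979.FC

/-- There is a law `ν` on sequences of symbols `0, 1, 2` (in the problem: 1, 2, star) which is a
4-block factor of an i.i.d. process, whose finite dimensional distributions are those of the merged
1-dependent 4-coloring, and which is the law of the merged process of every 1-dependent 4-coloring
`X`. -/
theorem result :
    ∃ ν : Measure (ℤ → Fin 3), IsProbabilityMeasure ν ∧ IsBlockFactor 4 ν ∧
      (∀ (k : ℤ) (n : ℕ) (w : Fin n → Fin 3),
        ν {x | ∀ j : Fin n, x (k + j) = w j} =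
          ∑ y ∈ Finset.univ.filter (fun y : Fin n → Fin 4 => ∀ i, merge (y i) = w i),
            (B (List.ofFn y) : ℝ≥0∞) / (Z n : ℝ≥0∞)) ∧
      ∀ {Ω : Type*} [MeasurableSpace Ω] (P : Measure Ω) [IsProbabilityMeasure P]
        (X : ℤ → Ω → Fin 4), IsFourColoring P X → P.map (fun ω i => merge (X i ω)) = ν := by
  refine ⟨lawY, inferInstance, ⟨ℝ × Bool, inferInstance, unif.prod coin, inferInstance, bf,
    measurable_bf, rfl⟩, lawY_word, ?_⟩
  intro Ω _ P _ X hX
  exact law_merge hX

end Pool.Agent.Results.MP_885716_pr.MergedIsBlockFactor
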